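import Mathlib

set_option autoImplicit false
set_option linter.unusedSectionVars false

namespace Pool.Agent.Y734.I.ALGC

/-- dot product -/
def dt {K : Type} [CommRing K] (a b : Fin 3 → K) : K := a 0 * b 0 + a 1 * b 1 + a 2 * b 2

/-- cross product -/
def cr {K : Type} [CommRing K] (a b : Fin 3 → K) : Fin 3 → K :=
  ![a 1 * b 2 - a 2 * b 1, a 2 * b 0 - a 0 * b 2, a 0 * b 1 - a 1 * b 0]

section
variable {K : Type} [Field K]

theorem cr0 (a b : Fin 3 → K) : cr a b 0 = a 1 * b 2 - a 2 * b 1 := rfl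
theorem cr1 (a b : Fin 3 → K) : cr a b 1 = a 2 * b 0 - a 0 * b 2 := rfl
theorem cr2 (a b : Fin 3 → K) : cr a b 2 = a 0 * b 1 - a 1 * b 0 := rfl

theorem ext3 {a b : Fin 3 → K} (h0 : a 0 = b 0) (h1 : a 1 = b 1) (h2 : a 2 = b 2) : a = b := by
  funext i; fin_cases i <;> assumption

theorem dt_comm (a b : Fin 3 → K) : dt a b = dt b a := by simp only [dt]; ring
theorem dt_add (a b c : Fin 3 → K) : dt a (b + c) = dt a b + dt a c := by
  simp only [dt, Pi.add_apply]; ring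
theorem dt_smul (t : K) (a b : Fin 3 → K) : dt a (t • b) = t * dt a b := by
  simp only [dt, Pi.smul_apply, smul_eq_mul]; ring
theorem add_dt (a b c : Fin 3 → K) : dt (a + b) c = dt a c + dt b c := by
  simp only [dt, Pi.add_apply]; ring
theorem sub_dt (a b c : Fin 3 → K) : dt (a - b) c = dt a c - dt b c := by
  simp only [dt, Pi.sub_apply]; ring
theorem smul_dt (t : K) (a b : Fin 3 → K) : dt (t • a) b = t * dt a b := by
  simp only [dt, Pi.smul_apply, smul_eq_mul]; ring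
theorem dt_cr_l (a b : Fin 3 → K) : dt a (cr a b) = 0 := by
  simp only [dt, cr0, cr1, cr2]; ring
theorem dt_cr_r (a b : Fin 3 → K) : dt b (cr a b) = 0 := by
  simp only [dt, cr0, cr1, cr2]; ring
theorem cyc (a b c : Fin 3 → K) : dt c (cr a b) = dt a (cr b c) := by
  simp only [dt, cr0, cr1, cr2]; ring

theorem cr_cr (a b u v : Fin 3 → K) :
    dt (cr a b) (cr u v) = dt a u * dt b v - dt a v * dt b u := by
  simp only [dt, cr0, cr1, cr2]; ring

theorem li_iff (a b c : Fin 3 → K) : LinearIndependent K ![a, b, c] ↔ dt c (cr a b) ≠ 0 := by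
  have h : ![a, b, c] = (Matrix.of ![a, b, c]).row := rfl
  rw [h, Matrix.linearIndependent_rows_iff_isUnit, Matrix.isUnit_iff_isUnit_det,
    isUnit_iff_ne_zero, Matrix.det_fin_three]
  simp only [dt, cr0, cr1, cr2, Matrix.of_apply, Matrix.cons_val_zero, Matrix.cons_val_one,
    Matrix.cons_val]
  apply not_congr
  constructor <;> intro h <;> linear_combination h

/-- three independent equations -/
theorem zero_of {u v w D : Fin 3 → K} (h : dt w (cr u v) ≠ 0) (h1 : dt u D = 0)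
    (h2 : dt v D = 0) (h3 : dt w D = 0) : D = 0 := by
  simp only [dt, cr0, cr1, cr2] at h h1 h2 h3
  apply ext3
  · apply (mul_eq_zero.mp (?_ : (w 0 * (u 1 * v 2 - u 2 * v 1) + w 1 * (u 2 * v 0 - u 0 * v 2) +
      w 2 * (u 0 * v 1 - u 1 * v 0)) * D 0 = 0)).resolve_left h
    linear_combination (v 1 * w 2 - v 2 * w 1) * h1 + (w 1 * u 2 - w 2 * u 1) * h2 +
      (u 1 * v 2 - u 2 * v 1) * h3
  · apply (mul_eq_zero.mp (?_ : (w 0 * (u 1 * v 2 - u 2 * v 1) + w 1 * (u 2 * v 0 - u 0 * v 2) +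
      w 2 * (u 0 * v 1 - u 1 * v 0)) * D 1 = 0)).resolve_left h
    linear_combination (v 2 * w 0 - v 0 * w 2) * h1 + (w 2 * u 0 - w 0 * u 2) * h2 +
      (u 2 * v 0 - u 0 * v 2) * h3
  · apply (mul_eq_zero.mp (?_ : (w 0 * (u 1 * v 2 - u 2 * v 1) + w 1 * (u 2 * v 0 - u 0 * v 2) +
      w 2 * (u 0 * v 1 - u 1 * v 0)) * D 2 = 0)).resolve_left h
    linear_combination (v 0 * w 1 - v 1 * w 0) * h1 + (w 0 * u 1 - w 1 * u 0) * h2 +
      (u 0 * v 1 - u 1 * v 0) * h3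

end

/-- a vector orthogonal to `a` and `b` is a multiple of `a × b` -/
theorem mult_cr {a b h : Fin 3 → ℚ} (hab : dt (cr a b) (cr a b) ≠ 0) (h1 : dt h a = 0)
    (h2 : dt h b = 0) : h = (dt h (cr a b) / dt (cr a b) (cr a b)) • cr a b := by
  have key : ∀ i, dt (cr a b) (cr a b) * h i = dt h (cr a b) * cr a b i := by
    intro i
    fin_cases i
    · simp only [dt, cr0, cr1, cr2, Fin.zero_eta] at *
      linear_combination -((a 2 * b 0 - a 0 * b 2) * b 2 - (a 0 * b 1 - a 1 * b 0) * b 1) * h1 -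
        ((a 0 * b 1 - a 1 * b 0) * a 1 - (a 2 * b 0 - a 0 * b 2) * a 2) * h2
    · simp only [dt, cr0, cr1, cr2, Fin.mk_one] at *
      linear_combination -((a 0 * b 1 - a 1 * b 0) * b 0 - (a 1 * b 2 - a 2 * b 1) * b 2) * h1 -
        ((a 1 * b 2 - a 2 * b 1) * a 2 - (a 0 * b 1 - a 1 * b 0) * a 0) * h2
    · simp only [dt, cr0, cr1, cr2, Fin.reduceFinMk] at *
      linear_combination -((a 1 * b 2 - a 2 * b 1) * b 1 - (a 2 * b 0 - a 0 * b 2) * b 0) * h1 -
        ((a 2 * b 0 - a 0 * b 2) * a 0 - (a 1 * b 2 - a 2 * b 1) * a 1) * h2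
  funext i
  rw [Pi.smul_apply, smul_eq_mul, div_mul_eq_mul_div, eq_div_iff hab, ← key i]
  ring

/-- **core**: the scaled forms -/
theorem core (h : Fin 6 → Fin 3 → ℚ) (c : Fin 6 → ℚ) (V1 V2 V3 : Fin 3 → ℚ) (α β γ : ℚ)
    (hα : α ≠ 0) (hβ : β ≠ 0) (hγ : γ ≠ 0) (hdep : α • V1 + β • V2 + γ • V3 = 0)
    (hc : ∀ i, c i ≠ 0) (hrel : ∀ j k, ∑ i, c i * (h i j * h i k) = 0)
    (h01 : dt (h 0) V1 = 0) (h11 : dt (h 1) V1 = 0) (h02 : dt (h 0) V2 = 1) (h12 : dt (h 1) V2 = 1)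
    (h22 : dt (h 2) V2 = 0) (h32 : dt (h 3) V2 = 0) (h21 : dt (h 2) V1 = 1) (h31 : dt (h 3) V1 = 1)
    (h43 : dt (h 4) V3 = 0) (h53 : dt (h 5) V3 = 0) (h41 : dt (h 4) V1 = 1) (h51 : dt (h 5) V1 = 1)
    (hne0 : h 0 ≠ h 1) (hne2 : h 2 ≠ h 3) (hne4 : h 4 ≠ h 5) :
    ∃ (e G1 G2 G3 : Fin 3 → ℚ) (s1 s2 s3 : ℚ), dt e (cr G1 G2) ≠ 0 ∧ dt G3 (cr G1 G2) = 0 ∧
      s1 ≠ 0 ∧ s2 ≠ 0 ∧ s3 ≠ 0 ∧ c 1 = - c 0 ∧ c 3 = - c 2 ∧ c 5 = - c 4 ∧
      h 0 = G1 + s1 • e ∧ h 1 = G1 - s1 • e ∧ h 2 = G2 + s2 • e ∧ h 3 = G2 - s2 • e ∧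
      h 4 = G3 + s3 • e ∧ h 5 = G3 - s3 • e := by
  set e := cr V1 V2 with he
  have hdt : ∀ u : Fin 3 → ℚ, α * dt u V1 + β * dt u V2 + γ * dt u V3 = 0 := by
    intro u
    have := congrArg (dt u) hdep
    rw [dt_add, dt_add, dt_smul, dt_smul, dt_smul] at this
    rw [this]; simp [dt]
  have hbil : ∀ u v : Fin 3 → ℚ, ∑ i, c i * (dt (h i) u * dt (h i) v) = 0 := by
    intro u v
    have : ∑ i, c i * (dt (h i) u * dt (h i) v) =
        ∑ j, ∑ k, u j * v k * ∑ i, c i * (h i j * h i k) := by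
      simp only [Fin.sum_univ_three, Fin.sum_univ_six, dt]
      ring
    rw [this]
    simp [hrel]
  have h42 := hdt (h 4)
  have h52 := hdt (h 5)
  have h03 := hdt (h 0)
  have h13 := hdt (h 1)
  have h23 := hdt (h 2)
  have h33 := hdt (h 3)
  rw [h41, h43] at h42
  rw [h51, h53] at h52
  rw [h01, h02] at h03
  rw [h11, h12] at h13
  rw [h21, h22] at h23
  rw [h31, h32] at h33
  have v42 : dt (h 4) V2 = -α / β := by field_simp; linarith
  have v52 : dt (h 5) V2 = -α / β := by field_simp; linarith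
  have v03 : dt (h 0) V3 = -β / γ := by field_simp; linarith
  have v13 : dt (h 1) V3 = -β / γ := by field_simp; linarith
  have v23 : dt (h 2) V3 = -α / γ := by field_simp; linarith
  have v33 : dt (h 3) V3 = -α / γ := by field_simp; linarith
  have e1 := hbil V1 V2
  have e2 := hbil V1 V3
  have e3 := hbil V2 V3
  simp only [Fin.sum_univ_six, h01, h11, h02, h12, h22, h32, h21, h31, h43, h53, h41, h51, v42, v52,
    v03, v13, v23, v33] at e1 e2 e3
  have c5 : c 5 = - c 4 := by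
    have : (c 4 + c 5) * (-α / β) = 0 := by linear_combination e1
    rcases mul_eq_zero.mp this with h | h
    · linarith
    · exact absurd h (div_ne_zero (neg_ne_zero.mpr hα) hβ)
  have c3 : c 3 = - c 2 := by
    have : (c 2 + c 3) * (-α / γ) = 0 := by linear_combination e2
    rcases mul_eq_zero.mp this with h | h
    · linarith
    · exact absurd h (div_ne_zero (neg_ne_zero.mpr hα) hγ)
  have c1 : c 1 = - c 0 := by
    have : (c 0 + c 1) * (-β / γ) = 0 := by linear_combination e3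
    rcases mul_eq_zero.mp this with h | h
    · linarith
    · exact absurd h (div_ne_zero (neg_ne_zero.mpr hβ) hγ)
  have hee : dt e e ≠ 0 := by
    intro h0
    have hz : e 0 = 0 ∧ e 1 = 0 ∧ e 2 = 0 := by
      simp only [dt] at h0
      refine ⟨?_, ?_, ?_⟩ <;> nlinarith [sq_nonneg (e 0), sq_nonneg (e 1), sq_nonneg (e 2)]
    have hz' : dt (cr (h 0) (h 2)) e = 0 := by simp [dt, hz.1, hz.2.1, hz.2.2]
    rw [he, cr_cr, h01, h22, h02, h21] at hz'
    norm_num at hz'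
  have hsub : ∀ a b : Fin 3 → ℚ, dt (a - b) V1 = 0 → dt (a - b) V2 = 0 → a ≠ b →
      ∃ (G : Fin 3 → ℚ) (s : ℚ), s ≠ 0 ∧ a = G + s • e ∧ b = G - s • e := by
    intro a b ha hb hab
    have hm := mult_cr (by rw [← he]; exact hee) ha hb
    rw [← he] at hm
    set t := dt (a - b) e / dt e e with ht
    refine ⟨(1 / 2 : ℚ) • (a + b), t / 2, ?_, ?_, ?_⟩
    · intro h0
      have : t = 0 := by linarith
      rw [this, zero_smul] at hm
      exact hab (sub_eq_zero.mp hm)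
    · funext i
      have := congrFun hm i
      simp only [Pi.sub_apply, Pi.smul_apply, smul_eq_mul, Pi.add_apply] at this ⊢
      linear_combination (1 / 2 : ℚ) * this
    · funext i
      have := congrFun hm i
      simp only [Pi.sub_apply, Pi.smul_apply, smul_eq_mul, Pi.add_apply] at this ⊢
      linear_combination (-1 / 2 : ℚ) * this
  obtain ⟨G1, s1, hs1, q0, q1⟩ := hsub (h 0) (h 1) (by rw [sub_dt, h01, h11, sub_zero])
    (by rw [sub_dt, h02, h12, sub_self]) hne0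
  obtain ⟨G2, s2, hs2, q2, q3⟩ := hsub (h 2) (h 3) (by rw [sub_dt, h21, h31, sub_self])
    (by rw [sub_dt, h22, h32, sub_zero]) hne2
  obtain ⟨G3, s3, hs3, q4, q5⟩ := hsub (h 4) (h 5) (by rw [sub_dt, h41, h51, sub_self])
    (by rw [sub_dt, v42, v52, sub_self]) hne4
  have eV1 : dt e V1 = 0 := by rw [dt_comm]; exact dt_cr_l _ _
  have eV2 : dt e V2 = 0 := by rw [dt_comm]; exact dt_cr_r _ _
  have g11 : dt G1 V1 = 0 := by rw [← h01, q0, add_dt, smul_dt, eV1]; ring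
  have g12 : dt G1 V2 = 1 := by rw [← h02, q0, add_dt, smul_dt, eV2]; ring
  have g21 : dt G2 V1 = 1 := by rw [← h21, q2, add_dt, smul_dt, eV1]; ring
  have g22 : dt G2 V2 = 0 := by rw [← h22, q2, add_dt, smul_dt, eV2]; ring
  have heO : dt e (cr G1 G2) = -1 := by
    rw [dt_comm, he, cr_cr, g11, g22, g12, g21]; norm_num
  have hO := hbil (cr G1 G2) (cr G1 G2)
  have k0 : dt (h 0) (cr G1 G2) = s1 * -1 := by
    rw [q0, add_dt, smul_dt, heO, dt_cr_l, zero_add]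
  have k1 : dt (h 1) (cr G1 G2) = - (s1 * -1) := by
    rw [q1, sub_dt, smul_dt, heO, dt_cr_l, zero_sub]
  have k2 : dt (h 2) (cr G1 G2) = s2 * -1 := by
    rw [q2, add_dt, smul_dt, heO, dt_cr_r, zero_add]
  have k3 : dt (h 3) (cr G1 G2) = - (s2 * -1) := by
    rw [q3, sub_dt, smul_dt, heO, dt_cr_r, zero_sub]
  have k4 : dt (h 4) (cr G1 G2) = dt G3 (cr G1 G2) + s3 * -1 := by
    rw [q4, add_dt, smul_dt, heO]
  have k5 : dt (h 5) (cr G1 G2) = dt G3 (cr G1 G2) - s3 * -1 := by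
    rw [q5, sub_dt, smul_dt, heO]
  simp only [Fin.sum_univ_six, k0, k1, k2, k3, k4, k5, c1, c3, c5] at hO
  have hG3O : dt G3 (cr G1 G2) = 0 := by
    have : (c 4 * s3) * dt G3 (cr G1 G2) = 0 := by linear_combination (-1 / 4 : ℚ) * hO
    exact (mul_eq_zero.mp this).resolve_left (mul_ne_zero (hc 4) hs3)
  exact ⟨e, G1, G2, G3, s1, s2, s3, by rw [heO]; norm_num, hG3O, hs1, hs2, hs3, c1, c3, c5,
    q0, q1, q2, q3, q4, q5⟩

end Pool.Agent.Y734.I.ALGC
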