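import Pool.Agent.Y734.I.StmsB
import Pool.Agent.Y734.I.ALGC.Core

set_option autoImplicit false

namespace Pool.Agent.Y734.I.ALGC

open Pool.Agent.Y734.I MvPolynomial

theorem crs_eq (a b : Fin 3 → ℚ) : crs a b = cr a b := rfl

section
variable {Ω : Type} [Field Ω] [Algebra ℚ Ω]

theorem ev_eq (l : Fin 3 → ℚ) (P : Fin 3 → Ω) :
    ev (N := 2) l P = dt (fun j => algebraMap ℚ Ω (l j)) P := by
  simp only [ev, dt]
  exact Fin.sum_univ_three _

theorem ev_add (a b : Fin 3 → ℚ) (P : Fin 3 → Ω) :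
    ev (N := 2) (a + b) P = ev (N := 2) a P + ev (N := 2) b P := by
  simp only [ev_eq, dt, Pi.add_apply, map_add]; ring

theorem ev_sub (a b : Fin 3 → ℚ) (P : Fin 3 → Ω) :
    ev (N := 2) (a - b) P = ev (N := 2) a P - ev (N := 2) b P := by
  simp only [ev_eq, dt, Pi.sub_apply, map_sub]; ring

theorem ev_smul (t : ℚ) (a : Fin 3 → ℚ) (P : Fin 3 → Ω) :
    ev (N := 2) (t • a) P = algebraMap ℚ Ω t * ev (N := 2) a P := by
  simp only [ev_eq, dt, Pi.smul_apply, smul_eq_mul, map_mul]; ring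

theorem gnr_ev {P : Fin 3 → Ω} (hP : Gnr P) {e : Fin 3 → ℚ} (he : e ≠ 0) :
    ev (N := 2) e P ≠ 0 := by
  have h := hP (∑ j, C (e j) * X j) 1 (by
    apply IsHomogeneous.sum
    intro j _
    exact (isHomogeneous_C_mul_X (e j) j)) ?_
  · simpa [ev, map_sum] using h
  · intro h0
    apply he
    funext j
    have := congrArg (coeff (Finsupp.single j 1)) h0
    rw [coeff_sum] at this
    simp only [coeff_C_mul, coeff_X, coeff_zero] at this
    rw [Finset.sum_eq_single j] at this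
    · simpa using this
    · intro b _ hb
      rw [if_neg, mul_zero]
      intro h1
      exact hb ((Finsupp.single_left_injective one_ne_zero) h1)
    · intro h; exact absurd (Finset.mem_univ j) h

/-- the vanishing of the mixed terms -/
theorem mixed {P Q : Fin 3 → Ω} {G e : Fin 3 → ℚ} {s c0 c1 : ℚ} (hs : s ≠ 0) (hc0 : c0 ≠ 0)
    (hc : c1 = - c0)
    (h : algebraMap ℚ Ω c0 * (ev (N := 2) (G + s • e) P * ev (N := 2) (G + s • e) Q) +
      algebraMap ℚ Ω c1 * (ev (N := 2) (G - s • e) P * ev (N := 2) (G - s • e) Q) = 0) :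
    ev (N := 2) G P * ev (N := 2) e Q + ev (N := 2) e P * ev (N := 2) G Q = 0 := by
  have hinj := (algebraMap ℚ Ω).injective
  have h1 : algebraMap ℚ Ω s ≠ 0 := fun h => hs (hinj (by rw [h, map_zero]))
  have h2 : algebraMap ℚ Ω c0 ≠ 0 := fun h => hc0 (hinj (by rw [h, map_zero]))
  have h3 : (2 : Ω) ≠ 0 := by
    have : algebraMap ℚ Ω 2 ≠ 0 := fun h => two_ne_zero (hinj (by rw [h, map_zero]))
    simpa using this
  rw [ev_add, ev_add, ev_sub, ev_sub, ev_smul, ev_smul, hc, map_neg] at h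
  have h4 : (2 * (algebraMap ℚ Ω c0 * algebraMap ℚ Ω s)) *
      (ev (N := 2) G P * ev (N := 2) e Q + ev (N := 2) e P * ev (N := 2) G Q) = 0 := by
    linear_combination h
  exact (mul_eq_zero.mp h4).resolve_left (mul_ne_zero h3 (mul_ne_zero h2 h1))

end

/-- the reflection -/
def Tm (O e : Fin 3 → ℚ) : Matrix (Fin 3) (Fin 3) ℚ :=
  Matrix.of fun j k => (if j = k then 1 else 0) - 2 * (O j * e k)

theorem Tm_sq {O e : Fin 3 → ℚ} (h : dt e O = 1) : Tm O e * Tm O e = 1 := by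
  ext j k
  rw [Matrix.mul_apply, Fin.sum_univ_three, Matrix.one_apply]
  simp only [Tm, Matrix.of_apply, dt] at h ⊢
  fin_cases j <;> fin_cases k <;> simp <;> first
    | linear_combination (4 * O 0 * e 0) * h
    | linear_combination (4 * O 0 * e 1) * h
    | linear_combination (4 * O 0 * e 2) * h
    | linear_combination (4 * O 1 * e 0) * h
    | linear_combination (4 * O 1 * e 1) * h
    | linear_combination (4 * O 1 * e 2) * h
    | linear_combination (4 * O 2 * e 0) * h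
    | linear_combination (4 * O 2 * e 1) * h
    | linear_combination (4 * O 2 * e 2) * h

theorem vecMul_Tm (O e v : Fin 3 → ℚ) : Matrix.vecMul v (Tm O e) = v - (2 * dt v O) • e := by
  ext k
  rw [Matrix.vecMul, dotProduct, Fin.sum_univ_three]
  simp only [Tm, Matrix.of_apply, dt, Pi.sub_apply, Pi.smul_apply, smul_eq_mul]
  fin_cases k <;> simp <;> ring

theorem ev_T {Ω : Type} [Field Ω] [Algebra ℚ Ω] (O e v : Fin 3 → ℚ) (P : Fin 3 → Ω) :
    dt (fun j => algebraMap ℚ Ω (v j))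
      (fun j => ∑ k, algebraMap ℚ Ω (Tm O e j k) * P k) =
      ev (N := 2) (Matrix.vecMul v (Tm O e)) P := by
  rw [ev_eq]
  simp only [Matrix.vecMul, dotProduct, Fin.sum_univ_three, dt, map_add, map_mul]
  ring

theorem crs_ne {H : Fin 6 → Fin 3 → ℚ} (hgp : GP3 H) (i j k : Fin 6) (hij : i ≠ j) (hik : i ≠ k)
    (hjk : j ≠ k) : dt (H k) (cr (H i) (H j)) ≠ 0 :=
  (li_iff _ _ _).mp (hgp i j k hij hik hjk)

/-- the scaled statement gives the statement -/
theorem fin_step {Ω : Type} [Field Ω] [Algebra ℚ Ω] (H h : Fin 6 → Fin 3 → ℚ) (r : Fin 6 → ℚ)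
    (hr : ∀ i, r i ≠ 0) (hH : ∀ i, H i = r i • h i) (c : Fin 6 → ℚ) (hc : ∀ i, c i ≠ 0)
    (P Q : Fin 3 → Ω) (gP : Gnr P) (gQ : Gnr Q)
    (h0 : algebraMap ℚ Ω (c 0) * pr (H 0) P Q + algebraMap ℚ Ω (c 1) * pr (H 1) P Q = 0)
    (h1 : algebraMap ℚ Ω (c 2) * pr (H 2) P Q + algebraMap ℚ Ω (c 3) * pr (H 3) P Q = 0)
    (e G1 G2 G3 : Fin 3 → ℚ) (s1 s2 s3 : ℚ) (he : dt e (cr G1 G2) ≠ 0) (hG3 : dt G3 (cr G1 G2) = 0)
    (hs1 : s1 ≠ 0) (hs2 : s2 ≠ 0) (c1 : c 1 * r 1 ^ 2 = - (c 0 * r 0 ^ 2))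
    (c3 : c 3 * r 3 ^ 2 = - (c 2 * r 2 ^ 2))
    (q0 : h 0 = G1 + s1 • e) (q1 : h 1 = G1 - s1 • e) (q2 : h 2 = G2 + s2 • e)
    (q3 : h 3 = G2 - s2 • e) (q4 : h 4 = G3 + s3 • e) (q5 : h 5 = G3 - s3 • e) :
    ∃ T : Matrix (Fin 3) (Fin 3) ℚ, T * T = 1 ∧
      (∀ i, ∃ j, j ≠ i ∧ ∃ a : ℚ, Matrix.vecMul (H i) T = a • H j) ∧
      ∃ a : Ω, a ≠ 0 ∧ ∀ j, Q j = a * ∑ k, algebraMap ℚ Ω (T j k) * P k := by
  have hinj := (algebraMap ℚ Ω).injective
  set d := dt e (cr G1 G2) with hd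
  set O : Fin 3 → ℚ := d⁻¹ • cr G1 G2 with hO
  have eO : dt e O = 1 := by rw [hO, dt_smul, ← hd, inv_mul_cancel₀ he]
  have gO1 : dt G1 O = 0 := by rw [hO, dt_smul, dt_cr_l, mul_zero]
  have gO2 : dt G2 O = 0 := by rw [hO, dt_smul, dt_cr_r, mul_zero]
  have gO3 : dt G3 O = 0 := by rw [hO, dt_smul, hG3, mul_zero]
  have hplus : ∀ (G : Fin 3 → ℚ) (s : ℚ), dt G O = 0 →
      Matrix.vecMul (G + s • e) (Tm O e) = G - s • e := by
    intro G s hG
    rw [vecMul_Tm, add_dt, smul_dt, hG, eO]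
    funext k
    simp only [Pi.sub_apply, Pi.add_apply, Pi.smul_apply, smul_eq_mul]
    ring
  have hminus : ∀ (G : Fin 3 → ℚ) (s : ℚ), dt G O = 0 →
      Matrix.vecMul (G - s • e) (Tm O e) = G + s • e := by
    intro G s hG
    rw [vecMul_Tm, sub_dt, smul_dt, hG, eO]
    funext k
    simp only [Pi.sub_apply, Pi.add_apply, Pi.smul_apply, smul_eq_mul]
    ring
  have hpart : ∀ i j, Matrix.vecMul (h i) (Tm O e) = h j →
      ∃ a : ℚ, Matrix.vecMul (H i) (Tm O e) = a • H j := by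
    intro i j hij
    refine ⟨r i / r j, ?_⟩
    rw [hH i, Matrix.smul_vecMul, hij, hH j, smul_smul, div_mul_cancel₀ _ (hr j)]
  refine ⟨Tm O e, Tm_sq eO, ?_, ?_⟩
  · intro i
    fin_cases i
    · exact ⟨1, by decide, hpart 0 1 (by rw [q0, q1]; exact hplus _ _ gO1)⟩
    · exact ⟨0, by decide, hpart 1 0 (by rw [q0, q1]; exact hminus _ _ gO1)⟩
    · exact ⟨3, by decide, hpart 2 3 (by rw [q2, q3]; exact hplus _ _ gO2)⟩
    · exact ⟨2, by decide, hpart 3 2 (by rw [q2, q3]; exact hminus _ _ gO2)⟩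
    · exact ⟨5, by decide, hpart 4 5 (by rw [q4, q5]; exact hplus _ _ gO3)⟩
    · exact ⟨4, by decide, hpart 5 4 (by rw [q4, q5]; exact hminus _ _ gO3)⟩
  · have he0 : e ≠ 0 := by
      rintro rfl
      apply he
      simp [hd, dt]
    have eP := gnr_ev gP he0
    have eQ := gnr_ev gQ he0
    have hpr : ∀ i, pr (H i) P Q =
        algebraMap ℚ Ω (r i ^ 2) * (ev (N := 2) (h i) P * ev (N := 2) (h i) Q) := by
      intro i
      rw [pr, hH i, ev_smul, ev_smul, map_pow]; ring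
    have m1 : ev (N := 2) G1 P * ev (N := 2) e Q + ev (N := 2) e P * ev (N := 2) G1 Q = 0 := by
      apply mixed hs1 (mul_ne_zero (hc 0) (pow_ne_zero 2 (hr 0))) c1
      rw [← q0, ← q1, map_mul, map_mul]
      rw [hpr, hpr] at h0
      linear_combination h0
    have m2 : ev (N := 2) G2 P * ev (N := 2) e Q + ev (N := 2) e P * ev (N := 2) G2 Q = 0 := by
      apply mixed hs2 (mul_ne_zero (hc 2) (pow_ne_zero 2 (hr 2))) c3
      rw [← q2, ← q3, map_mul, map_mul]
      rw [hpr, hpr] at h1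
      linear_combination h1
    set a : Ω := - ev (N := 2) e Q / ev (N := 2) e P with ha
    have hTG : ∀ G : Fin 3 → ℚ, dt G O = 0 → Matrix.vecMul G (Tm O e) = G := by
      intro G hG
      rw [vecMul_Tm, hG, mul_zero, zero_smul, sub_zero]
    have hTe : Matrix.vecMul e (Tm O e) = - e := by
      rw [vecMul_Tm, eO]
      funext k
      simp only [Pi.sub_apply, Pi.neg_apply, Pi.smul_apply, smul_eq_mul]
      ring
    set TP : Fin 3 → Ω := fun j => ∑ k, algebraMap ℚ Ω (Tm O e j k) * P k with hTP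
    have hdet : dt (fun j => algebraMap ℚ Ω (e j)) (cr (fun j => algebraMap ℚ Ω (G1 j))
        (fun j => algebraMap ℚ Ω (G2 j))) ≠ 0 := by
      have : dt (fun j => algebraMap ℚ Ω (e j)) (cr (fun j => algebraMap ℚ Ω (G1 j))
        (fun j => algebraMap ℚ Ω (G2 j))) = algebraMap ℚ Ω d := by
        rw [hd]
        simp only [dt, cr0, cr1, cr2, map_add, map_mul, map_sub]
      rw [this]
      exact fun h => he (hinj (by rw [h, map_zero]))
    have hD := zero_of (D := Q - a • TP) hdet ?_ ?_ ?_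
    · refine ⟨a, div_ne_zero (neg_ne_zero.mpr eQ) eP, fun j => ?_⟩
      have := congrFun hD j
      simp only [Pi.sub_apply, Pi.smul_apply, smul_eq_mul, Pi.zero_apply] at this
      exact sub_eq_zero.mp this
    · have e1 : dt (fun j => algebraMap ℚ Ω (G1 j)) TP = ev (N := 2) G1 P := by
        rw [hTP, ev_T, hTG _ gO1]
      have e2 : dt (fun j => algebraMap ℚ Ω (G1 j)) (Q - a • TP) =
          ev (N := 2) G1 Q - a * dt (fun j => algebraMap ℚ Ω (G1 j)) TP := by
        rw [ev_eq]; simp only [dt, Pi.sub_apply, Pi.smul_apply, smul_eq_mul]; ring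
      rw [e2, e1, ha]
      field_simp
      linear_combination m1
    · have e1 : dt (fun j => algebraMap ℚ Ω (G2 j)) TP = ev (N := 2) G2 P := by
        rw [hTP, ev_T, hTG _ gO2]
      have e2 : dt (fun j => algebraMap ℚ Ω (G2 j)) (Q - a • TP) =
          ev (N := 2) G2 Q - a * dt (fun j => algebraMap ℚ Ω (G2 j)) TP := by
        rw [ev_eq]; simp only [dt, Pi.sub_apply, Pi.smul_apply, smul_eq_mul]; ring
      rw [e2, e1, ha]
      field_simp
      linear_combination m2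
    · have e1 : dt (fun j => algebraMap ℚ Ω (e j)) TP = - ev (N := 2) e P := by
        rw [hTP, ev_T, hTe]
        have := ev_smul (-1) e P
        simpa using this
      have e2 : dt (fun j => algebraMap ℚ Ω (e j)) (Q - a • TP) =
          ev (N := 2) e Q - a * dt (fun j => algebraMap ℚ Ω (e j)) TP := by
        rw [ev_eq]; simp only [dt, Pi.sub_apply, Pi.smul_apply, smul_eq_mul]; ring
      rw [e2, e1, ha]
      field_simp
      ring

/-- **Job ALGC.** -/
theorem algc : AlgcStmt := by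
  intro Ω _ _ H c P Q hp hdep
  rw [Fintype.not_linearIndependent_iff] at hdep
  obtain ⟨g, hg, i0, hi0⟩ := hdep
  rw [Fin.sum_univ_three] at hg
  simp only [crs_eq, Matrix.cons_val_zero, Matrix.cons_val_one, Matrix.cons_val] at hg
  have dV : ∀ u : Fin 3 → ℚ, g 0 * dt u (cr (H 0) (H 1)) + g 1 * dt u (cr (H 2) (H 3)) +
      g 2 * dt u (cr (H 4) (H 5)) = 0 := by
    intro u
    have := congrArg (dt u) hg
    rw [dt_add, dt_add, dt_smul, dt_smul, dt_smul] at this
    rw [this]; simp [dt]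
  have n20 := crs_ne hp.gp 0 1 2 (by decide) (by decide) (by decide)
  have n30 := crs_ne hp.gp 0 1 3 (by decide) (by decide) (by decide)
  have n40 := crs_ne hp.gp 0 1 4 (by decide) (by decide) (by decide)
  have n50 := crs_ne hp.gp 0 1 5 (by decide) (by decide) (by decide)
  have n02 := crs_ne hp.gp 2 3 0 (by decide) (by decide) (by decide)
  have n12 := crs_ne hp.gp 2 3 1 (by decide) (by decide) (by decide)
  have n42 := crs_ne hp.gp 2 3 4 (by decide) (by decide) (by decide)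
  have n04 := crs_ne hp.gp 4 5 0 (by decide) (by decide) (by decide)
  have n24 := crs_ne hp.gp 4 5 2 (by decide) (by decide) (by decide)
  have w0 := dV (H 0)
  have w2 := dV (H 2)
  have w4 := dV (H 4)
  rw [dt_cr_l] at w0 w2 w4
  simp only [mul_zero, zero_add, add_zero] at w0 w2 w4
  -- all coefficients are nonzero
  have hz01 : g 1 = 0 ↔ g 2 = 0 := by
    constructor
    · intro h; rw [h, zero_mul, zero_add] at w0; exact (mul_eq_zero.mp w0).resolve_right n04
    · intro h; rw [h, zero_mul, add_zero] at w0; exact (mul_eq_zero.mp w0).resolve_right n02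
  have hz02 : g 0 = 0 ↔ g 2 = 0 := by
    constructor
    · intro h; rw [h, zero_mul, zero_add] at w2; exact (mul_eq_zero.mp w2).resolve_right n24
    · intro h; rw [h, zero_mul, add_zero] at w2; exact (mul_eq_zero.mp w2).resolve_right n20
  have hg2 : g 2 ≠ 0 := by
    intro h
    fin_cases i0
    · exact hi0 (hz02.mpr h)
    · exact hi0 (hz01.mpr h)
    · exact hi0 h
  have hg1 : g 1 ≠ 0 := fun h => hg2 (hz01.mp h)
  have hg0 : g 0 ≠ 0 := fun h => hg2 (hz02.mp h)
  set V1 := cr (H 0) (H 1) with hV1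
  set V2 := cr (H 2) (H 3) with hV2
  set V3 := cr (H 4) (H 5) with hV3
  set r : Fin 6 → ℚ := ![dt (H 0) V2, dt (H 1) V2, dt (H 2) V1, dt (H 3) V1, dt (H 4) V1,
    dt (H 5) V1] with hr
  have hr0 : ∀ i, r i ≠ 0 := by
    intro i
    fin_cases i
    · exact n02
    · exact n12
    · exact n20
    · exact n30
    · exact n40
    · exact n50
  set h : Fin 6 → Fin 3 → ℚ := fun i => (r i)⁻¹ • H i with hh
  have hH : ∀ i, H i = r i • h i := by
    intro i
    rw [hh]
    simp only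
    rw [smul_smul, mul_inv_cancel₀ (hr0 i), one_smul]
  have hdt : ∀ i u, dt (h i) u = (r i)⁻¹ * dt (H i) u := fun i u => smul_dt _ _ _
  have hne : ∀ i j k, i ≠ j → i ≠ k → j ≠ k → h i ≠ h j := by
    intro i j k hij hik hjk heq
    have h1 := crs_ne hp.gp i j k hij hik hjk
    apply h1
    rw [hH i, hH j, heq]
    simp only [dt, cr0, cr1, cr2, Pi.smul_apply, smul_eq_mul]
    ring
  obtain ⟨e, G1, G2, G3, s1, s2, s3, he, hG3, hs1, hs2, _, c1, c3, _, q0, q1, q2, q3, q4, q5⟩ :=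
    core h (fun i => c i * r i ^ 2) V1 V2 V3 (g 0) (g 1) (g 2) hg0 hg1 hg2 hg
      (fun i => mul_ne_zero (hp.c0 i) (pow_ne_zero 2 (hr0 i)))
      (by
        intro j k
        rw [← hp.rel j k]
        apply Finset.sum_congr rfl
        intro i _
        rw [hH i]
        simp only [Pi.smul_apply, smul_eq_mul]
        ring)
      (by rw [hdt, hV1, dt_cr_l, mul_zero])
      (by rw [hdt, hV1, dt_cr_r, mul_zero])
      (by rw [hdt]; exact inv_mul_cancel₀ (hr0 0))
      (by rw [hdt]; exact inv_mul_cancel₀ (hr0 1))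
      (by rw [hdt, hV2, dt_cr_l, mul_zero])
      (by rw [hdt, hV2, dt_cr_r, mul_zero])
      (by rw [hdt]; exact inv_mul_cancel₀ (hr0 2))
      (by rw [hdt]; exact inv_mul_cancel₀ (hr0 3))
      (by rw [hdt, hV3, dt_cr_l, mul_zero])
      (by rw [hdt, hV3, dt_cr_r, mul_zero])
      (by rw [hdt]; exact inv_mul_cancel₀ (hr0 4))
      (by rw [hdt]; exact inv_mul_cancel₀ (hr0 5))
      (hne 0 1 2 (by decide) (by decide) (by decide))
      (hne 2 3 0 (by decide) (by decide) (by decide))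
      (hne 4 5 0 (by decide) (by decide) (by decide))
  exact fin_step H h r hr0 hH c hp.c0 P Q hp.gP hp.gQ hp.h0 hp.h1 e G1 G2 G3 s1 s2 s3 he hG3 hs1
    hs2 c1 c3 q0 q1 q2 q3 q4 q5

end Pool.Agent.Y734.I.ALGC
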